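import Pool.Agent.helper36.V3.SpecW

/-!
# Project v3, module THN: multipliers near `1`
-/

set_option autoImplicit false

open Complex Metric Set Filter Topology MeasureTheory MPS Pool.Agent.helper98.ILF Pool.Agent.helper16.Multibrot

noncomputable section

namespace V3W

theorem THN (hV : VPD_stmt) (hL : LGN_stmt) (hK1 : PPS.K1_stmt) (hQB : PPS.QB_stmt)
    (hER : PPS.ERQ_stmt) (hRAD : PPS.RAD_stmt) : THN_stmt := by
  intro n a K hn ha hK
  obtain ⟨ε₁, hε₁, h1⟩ := hK1 n a hn ha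
  obtain ⟨A, hA, h2⟩ := hRAD n a hn ha
  set Cf : ℝ → ℝ := fun R => (n : ℝ) ^ 3 * max a 1 * (max R A) ^ n * (2 * K) * Real.pi * (max R A) ^ 2
    with hCf
  obtain ⟨ε₂, hε₂, h3⟩ := hV n a Cf hn ha
  refine ⟨min (min (ε₁ / 2) (ε₁ / (2 * K))) (min (1 / 2) (ε₂ / 5)), ?_, ?_⟩
  · have : 0 < ε₁ / (2 * K) := by positivity
    have : 0 < ε₁ / 2 := by positivity
    have : 0 < ε₂ / 5 := by positivity
    refine lt_min (lt_min ?_ ?_) (lt_min ?_ ?_) <;> first | assumption | norm_num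
  intro k _ f b g hBd hcyc hρ hε hEx
  have e1 : ‖PPS.rho f b - 1‖ ≤ ε₁ / 2 := hε.trans ((min_le_left _ _).trans (min_le_left _ _))
  have e2 : ‖PPS.rho f b - 1‖ ≤ ε₁ / (2 * K) := hε.trans ((min_le_left _ _).trans (min_le_right _ _))
  have e3 : ‖PPS.rho f b - 1‖ ≤ 1 / 2 := hε.trans ((min_le_right _ _).trans (min_le_left _ _))
  have e4 : ‖PPS.rho f b - 1‖ ≤ ε₂ / 5 := hε.trans ((min_le_right _ _).trans (min_le_right _ _))
  have hk0 : k ≠ 0 := NeZero.ne k
  rcases Nat.lt_or_ge k 2 with hk | hk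
  · obtain rfl : k = 1 := by omega
    have h4 := h1 f b g hBd hcyc hρ hEx
    have h5 := (hL.2.1 (PPS.rho f b) hρ).2
    have h6 : K * ‖PPS.rho f b - 1‖ ≤ ε₁ / 2 := by
      calc K * ‖PPS.rho f b - 1‖ ≤ K * (ε₁ / (2 * K)) := by gcongr
        _ = ε₁ / 2 := by field_simp
    linarith
  · by_contra hcon
    push Not at hcon
    obtain ⟨lam, hl1, hl2, hl3, hl4⟩ := hL.1 (PPS.rho f b) hρ e3
    have hlog := (hL.2.1 (PPS.rho f b) hρ).1
    have h7 : ε₂ ≤ ‖lam‖ := by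
      apply h3 k f b g lam hk hBd hcyc hEx hl1.symm (by rw [hl2]; exact hlog)
      intro R hR
      obtain ⟨i1, i2, i3⟩ := h2 f hBd
      set R' : ℝ := max R A with hR'
      have hRR' : R ≤ R' := le_max_left _ _
      have hAR' : A ≤ R' := le_max_right _ _
      have h1R' : 1 ≤ R' := hA.trans hAR'
      have hinv : ∀ y : ℂ, ‖f.eval y‖ < R' → ‖y‖ < R' := fun y => i2 R' y hAR'
      have hQ := hQB n k f b g a R' hn hBd.1 hBd.2.1 h1R'
      obtain ⟨j1, j2⟩ := (hER n k f b g hn hBd.1 hcyc hEx).2 R' _ (by linarith) hinv hQ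
      have j3 : ∫ z in ball (0 : ℂ) R, ‖PPS.er f b g z‖ ≤ ∫ z in ball (0 : ℂ) R', ‖PPS.er f b g z‖ := by
        apply setIntegral_mono_set j1.norm
        · exact Eventually.of_forall fun z => norm_nonneg _
        · exact (ball_subset_ball hRR').eventuallyLE
      refine (j3.trans j2).trans ?_
      have hS : ∑ m ∈ Finset.range (n - 1), ‖PPS.lam f b g m‖ ≤ 2 * K * ‖lam‖ := by
        refine hcon.le.trans ?_
        calc K * ‖PPS.rho f b - 1‖ ≤ K * (2 * ‖lam‖) := by gcongr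
          _ = 2 * K * ‖lam‖ := by ring
      have hpos : (0 : ℝ) ≤ (n : ℝ) ^ 3 * max a 1 * R' ^ n := by positivity
      calc (n : ℝ) ^ 3 * max a 1 * R' ^ n * (∑ m ∈ Finset.range (n - 1), ‖PPS.lam f b g m‖) *
            Real.pi * R' ^ 2 ≤ (n : ℝ) ^ 3 * max a 1 * R' ^ n * (2 * K * ‖lam‖) * Real.pi * R' ^ 2 := by
            gcongr
        _ = Cf R * ‖lam‖ := by
            rw [hCf]
            ring
    linarith

end V3W
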